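import Pool.Agent.Y246.Z700.Jac1
import Mathlib.Combinatorics.Enumerative.Pentagonal.PowerSeries

/-!
# Z700-JAC (job 1789, helper246 for helper700): Jacobi's identity for polynomials
-/

set_option autoImplicit false

namespace Pool.Agent.Y246.Z700

open Finset Pool.Agent.H464R3.J Polynomial

/-- the truncated product -/
noncomputable def PP (n : ℕ) : ℤ[X] := ∏ j ∈ range n, (1 - X ^ (j + 1))

theorem alg_aux {F : Type*} [Field F] (c a b u v : F) (ha : a ≠ 0) (hb : b ≠ 0) :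
    c * (b * v / (a * b)) * (a * u) = c * (u * v) := by
  field_simp

/-- the identity with polynomials -/
theorem poly_jac (n : ℕ) : (PP n) ^ 3 = ∑ k ∈ range (n + 1), (-1) ^ k * (2 * (k : ℤ[X]) + 1) *
    X ^ ((k + 1).choose 2) * ((∏ j ∈ Ico (n - k) n, (1 - X ^ (j + 1))) *
      ∏ j ∈ Ico (n + 1 + k) (2 * n + 1), (1 - X ^ (j + 1))) := by
  let F := FractionRing ℤ[X]
  have hinj : Function.Injective (algebraMap ℤ[X] F) := IsFractionRing.injective ℤ[X] F
  have : Infinite F := Infinite.of_injective _ hinj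
  set q : F := algebraMap ℤ[X] F X with hq
  have hq0 : q ≠ 0 := by
    rw [hq, Ne, map_eq_zero_iff _ hinj]
    exact X_ne_zero
  have hg : ∀ N, Gen q N := by
    intro N j h1 h2
    have h3 : (1 : ℤ[X]) - X ^ j ≠ 0 := by
      intro h
      have h4 := congrArg (fun p => Polynomial.coeff p j) h
      simp only [coeff_sub, coeff_one, coeff_X_pow, if_true, coeff_zero] at h4
      rw [if_neg (by omega)] at h4
      norm_num at h4
    intro h
    apply h3
    apply hinj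
    rw [map_sub, map_one, map_pow, map_zero]
    exact h
  have hf : ∀ N, f q N = algebraMap ℤ[X] F (PP N) := by
    intro N
    unfold f PP
    rw [map_prod]
    refine Finset.prod_congr rfl fun j _ => ?_
    rw [map_sub, map_one, map_pow]
  have hPne : ∀ N, algebraMap ℤ[X] F (PP N) ≠ 0 := fun N => by
    rw [← hf]
    exact (hg N).f_ne le_rfl
  apply hinj
  have h := fin_jac hq0 n (hg _)
  have h2 : (f q n) ^ 3 = ∑ k ∈ range (n + 1), (-1) ^ k * (2 * k + 1) * q ^ ((k + 1).choose 2) *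
      (f q (2 * n + 1) / (f q (n - k) * f q (n + 1 + k))) * f q n := by
    rw [← Finset.sum_mul, ← h]
    ring
  rw [map_pow, ← hf, h2, map_sum]
  refine Finset.sum_congr rfl fun k hk => ?_
  have hkn : k ≤ n := Nat.lt_succ_iff.1 (Finset.mem_range.1 hk)
  have e1 : PP n = PP (n - k) * ∏ j ∈ Ico (n - k) n, (1 - X ^ (j + 1)) := by
    unfold PP
    rw [Finset.prod_range_mul_prod_Ico _ (Nat.sub_le _ _)]
  have e2 : PP (2 * n + 1) = PP (n + 1 + k) * ∏ j ∈ Ico (n + 1 + k) (2 * n + 1), (1 - X ^ (j + 1)) := by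
    unfold PP
    rw [Finset.prod_range_mul_prod_Ico _ (by omega)]
  rw [hf, hf, hf, hf]
  simp only [map_mul, map_pow, map_neg, map_one, map_add, map_natCast, map_ofNat]
  have h3 := hPne (n - k)
  have h4 := hPne (n + 1 + k)
  have e1' := congrArg (algebraMap ℤ[X] F) e1
  have e2' := congrArg (algebraMap ℤ[X] F) e2
  rw [map_mul] at e1' e2'
  rw [e1', e2']
  rw [← hq]
  exact alg_aux _ _ _ _ _ h3 h4

/-- products of factors near `1` -/
theorem dvd_prod_sub_one (a : ℕ) (s : Finset ℕ) (h : ∀ j ∈ s, a ≤ j) :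
    (X ^ (a + 1) : ℤ[X]) ∣ ∏ j ∈ s, (1 - X ^ (j + 1)) - 1 := by
  classical
  induction s using Finset.induction_on with
  | empty => simp
  | insert b s hb ih =>
    rw [Finset.prod_insert hb]
    have h1 := ih fun j hj => h j (Finset.mem_insert_of_mem hj)
    have h2 : (X ^ (a + 1) : ℤ[X]) ∣ X ^ (b + 1) :=
      pow_dvd_pow _ (Nat.succ_le_succ (h b (Finset.mem_insert_self _ _)))
    have e : (1 - X ^ (b + 1)) * ∏ j ∈ s, (1 - X ^ (j + 1)) - 1 =
        (∏ j ∈ s, (1 - X ^ (j + 1)) - 1) - X ^ (b + 1) * ∏ j ∈ s, (1 - X ^ (j + 1) : ℤ[X]) := by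
      ring
    rw [e]
    exact dvd_sub h1 (h2.mul_right _)

/-- Jacobi's identity modulo a power of the variable -/
theorem jac_dvd (n : ℕ) : (X ^ (n + 1) : ℤ[X]) ∣ (PP n) ^ 3 -
    ∑ k ∈ range (n + 1), (-1) ^ k * (2 * (k : ℤ[X]) + 1) * X ^ ((k + 1).choose 2) := by
  rw [poly_jac, ← Finset.sum_sub_distrib]
  refine Finset.dvd_sum fun k hk => ?_
  have hkn : k ≤ n := Nat.lt_succ_iff.1 (Finset.mem_range.1 hk)
  set U : ℤ[X] := ∏ j ∈ Ico (n - k) n, (1 - X ^ (j + 1)) with hU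
  set V : ℤ[X] := ∏ j ∈ Ico (n + 1 + k) (2 * n + 1), (1 - X ^ (j + 1)) with hV
  have h1 : (X ^ (n - k + 1) : ℤ[X]) ∣ U - 1 :=
    dvd_prod_sub_one _ _ fun j hj => (Finset.mem_Ico.1 hj).1
  have h2 : (X ^ (n - k + 1) : ℤ[X]) ∣ V - 1 :=
    dvd_prod_sub_one _ _ fun j hj => by
      have := (Finset.mem_Ico.1 hj).1
      omega
  have h3 : (X ^ (n - k + 1) : ℤ[X]) ∣ U * V - 1 := by
    have e : U * V - 1 = (U - 1) * V + (V - 1) := by ring
    rw [e]
    exact dvd_add (h1.mul_right _) h2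
  have h4 : (X ^ (n + 1) : ℤ[X]) ∣ X ^ ((k + 1).choose 2) * X ^ (n - k + 1) := by
    rw [← pow_add]
    have := k_le_tri k
    exact pow_dvd_pow _ (by omega)
  have h5 : (X ^ (n + 1) : ℤ[X]) ∣ X ^ ((k + 1).choose 2) * (U * V - 1) :=
    h4.trans (mul_dvd_mul_left _ h3)
  have e : (-1) ^ k * (2 * (k : ℤ[X]) + 1) * X ^ ((k + 1).choose 2) * (U * V) -
      (-1) ^ k * (2 * (k : ℤ[X]) + 1) * X ^ ((k + 1).choose 2) =
      ((-1) ^ k * (2 * (k : ℤ[X]) + 1)) * (X ^ ((k + 1).choose 2) * (U * V - 1)) := by ring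
  rw [e]
  exact h5.mul_left _

/-- vanishing of the coefficients -/
theorem coeff_zero_of {n m : ℕ} (hmn : m ≤ n) (hm : ∀ k : ℕ, (k + 1).choose 2 ≠ m) :
    ((PP n) ^ 3).coeff m = 0 := by
  have h1 := (X_pow_dvd_iff.1 (jac_dvd n)) m (by omega)
  rw [coeff_sub, sub_eq_zero] at h1
  rw [h1, finsetSum_coeff]
  refine Finset.sum_eq_zero fun k _ => ?_
  have e : (-1) ^ k * (2 * (k : ℤ[X]) + 1) * X ^ ((k + 1).choose 2) =
      C ((-1) ^ k * (2 * (k : ℤ) + 1)) * X ^ ((k + 1).choose 2) := by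
    simp
  rw [e, coeff_C_mul, coeff_X_pow, if_neg (fun h => hm k h.symm), mul_zero]

end Pool.Agent.Y246.Z700
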