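import Pool.Agent.Z700.Defs
import Pool.Agent.Y246.Z700.Jac2

/-!
# Z700-JAC (job 1789, helper246 for helper700): the cube of the theta series of `chi12`
-/

set_option autoImplicit false

namespace Pool.Agent.Y246.Z700

open Finset Polynomial Pool.Agent.Z700

/-- the pentagonal number theorem for polynomials -/
theorem pent_coeff (M : ℕ) : ∃ N0 : ℕ, ∀ N, N0 ≤ N → ∀ m ≤ M,
    (PP N).coeff m = (PowerSeries.pentagonalSeries ℤ).coeff m := by
  have h1 : ∀ m ∈ range (M + 1), ∀ᶠ N in Filter.atTop,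
      (PP N).coeff m = (PowerSeries.pentagonalSeries ℤ).coeff m := by
    intro m _
    filter_upwards [Filter.tendsto_finset_range.eventually
      (PowerSeries.coeff_prod_one_sub_X_pow_eventually_eq ℤ m)] with N hN
    rw [← hN, ← Polynomial.coeff_coe]
    congr 1
    unfold PP
    rw [← Polynomial.coeToPowerSeries.ringHom_apply, map_prod]
    refine Finset.prod_congr rfl fun j _ => ?_
    rw [map_sub, map_one, map_pow]
    simp
  have h2 := (Filter.eventually_all_finset (range (M + 1))).2 h1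
  obtain ⟨N0, hN0⟩ := Filter.eventually_atTop.1 h2
  exact ⟨N0, fun N hN m hm => hN0 N hN m (Finset.mem_range.2 (by omega))⟩

/-! ### the character -/

theorem chi12_neg (a : ℤ) : chi12 (-a) = chi12 a := by
  unfold chi12
  rcases (by omega : a % 12 = 0 ∨ a % 12 = 1 ∨ a % 12 = 2 ∨ a % 12 = 3 ∨ a % 12 = 4 ∨ a % 12 = 5 ∨
    a % 12 = 6 ∨ a % 12 = 7 ∨ a % 12 = 8 ∨ a % 12 = 9 ∨ a % 12 = 10 ∨ a % 12 = 11) with
    h | h | h | h | h | h | h | h | h | h | h | h <;>
  · have h2 : (-a) % 12 = (12 - a % 12) % 12 := by omega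
    rw [h2, h]
    norm_num

theorem chi12_six (k : ℤ) : chi12 (6 * k - 1) = Int.negOnePow k := by
  rcases Int.even_or_odd k with h | h
  · rw [Int.negOnePow_even k h]
    obtain ⟨r, rfl⟩ := h
    unfold chi12
    rw [if_pos (by omega)]
    rfl
  · rw [Int.negOnePow_odd k h]
    obtain ⟨r, rfl⟩ := h
    unfold chi12
    rw [if_neg (by omega), if_pos (by omega)]
    rfl

/-- the integers prime to `6` -/
theorem six_of_chi {a : ℤ} (h : chi12 a ≠ 0) : ∃ k : ℤ, a = 6 * k - 1 ∨ a = -(6 * k - 1) := by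
  unfold chi12 at h
  split_ifs at h with h1 h2
  · rcases h1 with h1 | h1
    · exact ⟨(1 - a) / 6, Or.inr (by omega)⟩
    · exact ⟨(a + 1) / 6, Or.inl (by omega)⟩
  · rcases h2 with h2 | h2
    · exact ⟨(a + 1) / 6, Or.inl (by omega)⟩
    · exact ⟨(1 - a) / 6, Or.inr (by omega)⟩
  · exact absurd rfl h

theorem sq_six (k : ℤ) : (6 * k - 1) ^ 2 = 24 * (pentagonal k : ℤ) + 1 := by
  have h := two_mul_natCast_pentagonal k
  linear_combination (-12) * h

/-- the truncated theta series -/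
noncomputable def TA (n : ℕ) : ℤ[X] :=
  ∑ a ∈ Icc (-(n : ℤ)) n, C (chi12 a) * X ^ (a.natAbs ^ 2)

theorem coeff_TA (n s : ℕ) (hs : s ≤ n) : (TA n).coeff s =
    if 24 ∣ s - 1 ∧ 1 ≤ s then 2 * (PowerSeries.pentagonalSeries ℤ).coeff ((s - 1) / 24) else 0 := by
  classical
  unfold TA
  rw [finsetSum_coeff]
  simp only [coeff_C_mul, coeff_X_pow, mul_ite, mul_one, mul_zero]
  by_cases hex : ∃ k : ℤ, (s : ℤ) = (6 * k - 1) ^ 2
  · obtain ⟨k, hk⟩ := hex
    have hk2 : (s : ℤ) = 24 * (pentagonal k : ℤ) + 1 := by rw [hk, sq_six]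
    have hs1 : s = 24 * pentagonal k + 1 := by exact_mod_cast hk2
    have hb : |6 * k - 1| ≤ n := by
      have h1 : |6 * k - 1| ≤ (6 * k - 1) ^ 2 := by
        rw [← sq_abs]
        nlinarith [Int.one_le_abs (show 6 * k - 1 ≠ 0 by omega)]
      have h2 : ((s : ℕ) : ℤ) ≤ n := by exact_mod_cast hs
      linarith
    rw [abs_le] at hb
    rw [if_pos ⟨⟨pentagonal k, by omega⟩, by omega⟩, show (s - 1) / 24 = pentagonal k by omega,
      PowerSeries.coeff_pentagonalSeries_pentagonal]
    have hne : (6 * k - 1 : ℤ) ≠ -(6 * k - 1) := by omega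
    have hpair : ({6 * k - 1, -(6 * k - 1)} : Finset ℤ) ⊆ Icc (-(n : ℤ)) n := by
      intro a ha
      rw [Finset.mem_insert, Finset.mem_singleton] at ha
      rw [Finset.mem_Icc]
      rcases ha with rfl | rfl <;> constructor <;> omega
    rw [← Finset.sum_subset hpair]
    · rw [Finset.sum_pair hne, if_pos, if_pos, chi12_neg, chi12_six]
      · rw [two_mul, Int.cast_id]
      · zify
        rw [sq_abs, hk]
        ring
      · zify
        rw [sq_abs, hk]
    · intro a _ ha
      rw [if_neg]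
      intro h
      apply ha
      have h1 : (a : ℤ) ^ 2 = (6 * k - 1) ^ 2 := by
        rw [← hk, h]
        zify
        rw [sq_abs]
      rw [Finset.mem_insert, Finset.mem_singleton]
      exact sq_eq_sq_iff_eq_or_eq_neg.1 h1
  · have hz : ∀ a ∈ Icc (-(n : ℤ)) n, (if s = a.natAbs ^ 2 then chi12 a else 0) = 0 := by
      intro a _
      split_ifs with h
      · by_contra hc
        obtain ⟨k, hk⟩ := six_of_chi hc
        apply hex
        refine ⟨k, ?_⟩
        rw [h]
        zify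
        rw [sq_abs]
        rcases hk with rfl | rfl
        · rfl
        · ring
      · rfl
    rw [Finset.sum_eq_zero hz]
    split_ifs with h
    · obtain ⟨⟨j, hj⟩, h1⟩ := h
      rw [show (s - 1) / 24 = j by omega, PowerSeries.coeff_pentagonalSeries_eq_zero, mul_zero]
      rintro ⟨k, hk⟩
      apply hex
      refine ⟨k, ?_⟩
      rw [sq_six, hk]
      have : s = 24 * j + 1 := by omega
      rw [this]
      push_cast
      ring
    · rfl

/-- the sum over the vectors is a coefficient of the cube -/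
theorem sum_vec (n : ℕ) : ∑ v ∈ vec n, chi12 (v 0) * chi12 (v 1) * chi12 (v 2) =
    ((TA n) ^ 3).coeff n := by
  classical
  have h1 : (TA n) ^ 3 = ∏ _i : Fin 3, ∑ a ∈ Icc (-(n : ℤ)) n, C (chi12 a) * X ^ (a.natAbs ^ 2) := by
    rw [Finset.prod_const, Finset.card_univ, Fintype.card_fin]
    rfl
  rw [h1, Finset.prod_univ_sum, finsetSum_coeff]
  unfold vec
  rw [Finset.sum_filter]
  refine Finset.sum_congr rfl fun v _ => ?_
  rw [Finset.prod_mul_distrib, Finset.prod_pow_eq_pow_sum, ← map_prod, coeff_C_mul, coeff_X_pow,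
    mul_ite, mul_one, mul_zero, Fin.sum_univ_three, Fin.prod_univ_three]
  refine if_congr ?_ rfl rfl
  rw [dotProduct, Fin.sum_univ_three]
  constructor
  · intro h
    zify
    rw [sq_abs, sq_abs, sq_abs, ← h]
    ring
  · intro h
    rw [h]
    zify
    rw [sq_abs, sq_abs, sq_abs]
    ring

theorem t_JAC : S_JAC := by
  intro n hn
  rw [sum_vec]
  obtain ⟨N0, hN0⟩ := pent_coeff n
  set N := max N0 n with hN
  have hNn : n ≤ N := le_max_right _ _
  -- the comparison polynomial
  set B : ℤ[X] := 2 * X * expand ℤ 24 (PP N) with hB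
  have hcoeff : ∀ s ≤ n, (TA n - B).coeff s = 0 := by
    intro s hs
    rw [coeff_sub, coeff_TA n s hs, hB, mul_assoc, show (2 : ℤ[X]) = C 2 from rfl, coeff_C_mul]
    rcases Nat.eq_zero_or_pos s with rfl | hs0
    · simp
    · obtain ⟨t, rfl⟩ : ∃ t, s = t + 1 := ⟨s - 1, by omega⟩
      rw [coeff_X_mul, coeff_expand (by norm_num), Nat.add_sub_cancel]
      by_cases h : 24 ∣ t
      · rw [if_pos ⟨h, by omega⟩, if_pos h, hN0 N (le_max_left _ _) _ (by omega), sub_self]
      · rw [if_neg (fun h2 => h h2.1), if_neg h, mul_zero, sub_self]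
  have hdvd : (X ^ (n + 1) : ℤ[X]) ∣ TA n - B :=
    X_pow_dvd_iff.2 fun s hs => hcoeff s (by omega)
  have hdvd3 : (X ^ (n + 1) : ℤ[X]) ∣ (TA n) ^ 3 - B ^ 3 := hdvd.trans (sub_dvd_pow_sub_pow _ _ _)
  have h1 := X_pow_dvd_iff.1 hdvd3 n (by omega)
  rw [coeff_sub, sub_eq_zero] at h1
  rw [h1]
  have h2 : B ^ 3 = C 8 * (X ^ 3 * expand ℤ 24 ((PP N) ^ 3)) := by
    rw [hB, map_pow, show (C (8 : ℤ) : ℤ[X]) = 2 ^ 3 by norm_num]
    ring
  rw [h2, coeff_C_mul, coeff_X_pow_mul']
  split_ifs with h3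
  · rw [coeff_expand (by norm_num)]
    split_ifs with h4
    · obtain ⟨m, hm⟩ := h4
      rw [show (n - 3) / 24 = m by omega, coeff_zero_of (by omega), mul_zero]
      intro k hk
      apply hn
      refine ⟨2 * k + 1, ?_⟩
      have h5 := two_tri k
      have h6 : n = 24 * m + 3 := by omega
      rw [h6, ← hk]
      nlinarith
    · rw [mul_zero]
  · rw [mul_zero]

end Pool.Agent.Y246.Z700
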